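import Pool.Agent.Lib.SA.Fin3

theorem Pool.Agent.Results.MP_d4c432_nt.SharpAll.result (K κ σ ρ : Type) [Field K] [NumberField K]
    [Field κ] [IsAlgClosed κ] [Algebra K κ] [Algebra.IsAlgebraic K κ] [Fintype σ] [Fintype ρ]
    (A : D4C.AbVar κ σ) (Z : Set (Projectivization κ (σ → κ))) (hZ : D4C.ZClosed Z)
    (lam : Projectivization κ (σ → κ) → Projectivization κ (ρ → κ))
    (hlam : D4C.IsMor fun p : (A.carrier \ Z : Set _) => lam p) (ε : ℝ) (hε : 0 < ε) :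
    ∃ (c C : ℝ) (BB : Set (AddSubgroup A.carrier)) (k : ℕ)
      (T : Fin k → Set (Projectivization κ (σ → κ))) (m N : Fin k → ℕ)
      (ψ : ∀ j, Projectivization κ (σ → κ) → Projectivization κ (ρ ⊕ Fin (N j) → κ)),
      (∀ P : A.carrier, D4C.IsRat K P.1 →
        BddAbove (Set.range fun i : ℕ => D4C.vecHt K (2 ^ i • P).1.rep / 4 ^ i)) ∧
      0 < c ∧ BB.Finite ∧ (∀ G ∈ BB, A.IsSubvar G) ∧
      (∀ j, (∃ Q B, A.IsSubvar B ∧ T j = A.transl Q B) ∧ 1 ≤ m j ∧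
        (D4C.IsMor fun p : T j => ψ j p) ∧ (∀ z, {p ∈ T j | ψ j p = z}.Finite) ∧
        (∀ p ∈ T j, p ∉ Z → ∃ a, a ≠ 0 ∧ ∀ i, (ψ j p).rep (Sum.inl i) = a * (lam p).rep i ^ m j) ∧
        ∀ P : A.carrier, P.1 ∈ T j → D4C.IsRat K P.1 →
          c * A.canHt K P ≤ D4C.vecHt K (ψ j P).rep + C) ∧
      ∀ P : A.carrier, P.1 ∉ Z → D4C.IsRat K P.1 → C ≤ A.canHt K P →
        (∀ G ∈ BB, ∃ p ∈ A.transl P G, p ∉ Z ∧ lam p ≠ lam P) →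
        ∃ j, P.1 ∈ T j ∧
          (1 - ε) * D4C.vecHt K (ψ j P).rep ≤ m j * D4C.vecHt K (lam P).rep :=
  D4C.SA.Fin.all3 K κ σ ρ A Z hZ lam hlam ε hε
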